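import Pool.Agent.Helper23.HK.Cov

set_option autoImplicit false
set_option linter.unusedVariables false
set_option linter.unusedSectionVars false

/-!
# Genericity: for general coefficients the two double coverings over the generic point of the other
factors satisfy the density hypotheses
-/

namespace Pool.Agent.Helper23.HK

open MvPolynomial
open Pool.Agent.Helper28.HN (I aff)
open Pool.Agent.Helper64.HK
open Pool.Agent.Helper47.NI (Dbl)

variable {k m : ℕ} {a : Fin (k + 1) → Fin (m + 1)}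

/-- The affine coordinates of the other factors. -/
abbrev Bx {k : ℕ} (j : Fin k) (m : ℕ) := {l : Fin k // l ≠ j} × Fin (m + 1)

/-- The point with the coordinates `b` of the other factors. -/
def Xb (j : Fin k) {S : Type*} [CommRing S] (b : Bx j m → S) : Fin (k + 1) → I m → S :=
  Fin.cons 0 fun l => if h : l = j then 0 else aff fun i => b (⟨l, h⟩, i)

theorem Xb_apply (j : Fin k) {S : Type*} [CommRing S] (b : Bx j m → S) (l : Fin k) (hl : l ≠ j) :
    Xb j b l.succ = aff fun i => b (⟨l, hl⟩, i) := by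
  unfold Xb
  rw [Fin.cons_succ, dif_neg hl]

theorem map_Xb (j : Fin k) {S T : Type*} [CommRing S] [CommRing T] (f : S →+* T)
    (b : Bx j m → S) : (fun l i => f (Xb j b l i)) = Xb j fun e => f (b e) := by
  funext l i
  refine Fin.cases ?_ (fun l => ?_) l
  · exact map_zero f
  · unfold Xb
    rw [Fin.cons_succ, Fin.cons_succ]
    split_ifs with h
    · exact map_zero f
    · refine Fin.cases ?_ (fun i => ?_) i
      · simp [aff]
      · simp [aff]

theorem core {σ : Type} (j : Fin k)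
    (cs : ∀ (S : Type) [CommRing S], (Ix a → S) → (Fin (k + 1) → I m → S) → σ → S)
    (hnat : ∀ (S T : Type) [CommRing S] [CommRing T] (f : S →+* T) (c : Ix a → S)
      (X : Fin (k + 1) → I m → S) (e : σ),
      f (cs S c X e) = cs T (fun e => f (c e)) (fun l i => f (X l i)) e)
    (hcongr : ∀ (S : Type) [CommRing S] (c : Ix a → S) (X X' : Fin (k + 1) → I m → S),
      (∀ l, l ≠ 0 → l ≠ j.succ → X l = X' l) → cs S c X = cs S c X')
    (hsurj : ∀ X : Fin (k + 1) → I m → ℚ, (∀ l, l ≠ 0 → l ≠ j.succ → X l 0 = 1) →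
      ∀ c0 : σ → ℚ, ∃ c, cs ℚ c X = c0)
    {Δ : MvPolynomial σ ℚ} (hΔ : Δ ≠ 0) :
    ∃ δ : MvPolynomial (Ix a) ℚ, δ ≠ 0 ∧ ∀ (K κ : Type) [Field K] [Algebra ℚ K] [Field κ]
      [Algebra ℚ κ] [Algebra K κ] (c : Ix a → K) (b : Bx j m → κ),
      Function.Injective (aeval b : MvPolynomial (Bx j m) K →ₐ[K] κ) →
      ∀ X : Fin (k + 1) → I m → κ,
      (∀ (l : Fin k) (hl : l ≠ j), X l.succ = aff fun i => b (⟨l, hl⟩, i)) →
      aeval c δ ≠ 0 → aeval (cs κ (fun e => algebraMap K κ (c e)) X) Δ ≠ 0 := by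
  let cg : Ix a → MvPolynomial (Bx j m) (MvPolynomial (Ix a) ℚ) := fun e => C (X e)
  let bg : Bx j m → MvPolynomial (Bx j m) (MvPolynomial (Ix a) ℚ) := fun e => X e
  let P : MvPolynomial (Bx j m) (MvPolynomial (Ix a) ℚ) := aeval (cs _ cg (Xb j bg)) Δ
  have hP : ∀ (T : Type) [CommRing T] (ρ : MvPolynomial (Bx j m) (MvPolynomial (Ix a) ℚ) →+* T),
      ρ P = eval₂ (ρ.comp (algebraMap ℚ _))
        (cs T (fun e => ρ (cg e)) (Xb j fun e => ρ (bg e))) Δ := by
    intro T _ ρ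
    have h1 : ρ P = ρ (eval₂ (algebraMap ℚ _) (cs _ cg (Xb j bg)) Δ) := by
      rw [← aeval_def]
    rw [h1, MvPolynomial.hom_eval₂]
    congr 1
    funext e
    rw [hnat _ T ρ, map_Xb]
  have hP0 : P ≠ 0 := by
    obtain ⟨c0, hc0⟩ : ∃ c0 : σ → ℚ, eval c0 Δ ≠ 0 := by
      by_contra hcon
      push Not at hcon
      exact hΔ (MvPolynomial.funext fun x => by rw [hcon x, map_zero])
    obtain ⟨c1, hc1⟩ := hsurj (Xb j 0) (by
      intro l h0 h1
      obtain ⟨l', rfl⟩ := Fin.exists_succ_eq_of_ne_zero h0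
      rw [Xb_apply j _ l' (fun h => h1 (by rw [h]))]
      rfl) c0
    intro h0
    apply hc0
    have h1 := hP ℚ (eval₂Hom (eval c1 : MvPolynomial (Ix a) ℚ →+* ℚ) (0 : Bx j m → ℚ))
    rw [h0, map_zero] at h1
    have e1 : (fun e => eval₂Hom (eval c1 : MvPolynomial (Ix a) ℚ →+* ℚ) (0 : Bx j m → ℚ)
        (cg e)) = c1 := by
      funext e
      simp [cg]
    have e2 : (fun e => eval₂Hom (eval c1 : MvPolynomial (Ix a) ℚ →+* ℚ) (0 : Bx j m → ℚ)
        (bg e)) = 0 := by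
      funext e
      simp [bg]
    rw [e1, e2, hc1, Subsingleton.elim (RingHom.comp _ _) (RingHom.id ℚ), eval₂_id] at h1
    exact h1.symm
  obtain ⟨e, he⟩ := MvPolynomial.ne_zero_iff.1 hP0
  refine ⟨coeff e P, he, ?_⟩
  intro K κ _ _ _ _ _ c b hb X hX hc
  let ρ1 : MvPolynomial (Bx j m) (MvPolynomial (Ix a) ℚ) →+* MvPolynomial (Bx j m) K :=
    MvPolynomial.map (aeval c : MvPolynomial (Ix a) ℚ →ₐ[ℚ] K).toRingHom
  have h1 : ρ1 P ≠ 0 := by
    rw [MvPolynomial.ne_zero_iff]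
    refine ⟨e, ?_⟩
    change coeff e (MvPolynomial.map _ P) ≠ 0
    rw [coeff_map]
    exact hc
  have h2 : (aeval b : MvPolynomial (Bx j m) K →ₐ[K] κ) (ρ1 P) ≠ 0 := fun h0 =>
    h1 (hb (h0.trans (map_zero _).symm))
  have h3 := hP κ ((aeval b : MvPolynomial (Bx j m) K →ₐ[K] κ).toRingHom.comp ρ1)
  have e1 : (fun e => ((aeval b : MvPolynomial (Bx j m) K →ₐ[K] κ).toRingHom.comp ρ1) (cg e)) =
      fun e => algebraMap K κ (c e) := by
    funext e
    simp [cg, ρ1]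
  have e2 : (fun e => ((aeval b : MvPolynomial (Bx j m) K →ₐ[K] κ).toRingHom.comp ρ1) (bg e)) =
      b := by
    funext e
    simp [bg, ρ1]
  have e3 : cs κ (fun e => algebraMap K κ (c e)) (Xb j b) =
      cs κ (fun e => algebraMap K κ (c e)) X := by
    apply hcongr
    intro l h0 hl
    obtain ⟨l', rfl⟩ := Fin.exists_succ_eq_of_ne_zero h0
    rw [Xb_apply j _ l' (fun h => hl (by rw [h])), hX]
  rw [e1, e2, e3, Subsingleton.elim (RingHom.comp _ _) (algebraMap ℚ κ)] at h3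
  rw [aeval_def, ← h3]
  exact h2

theorem dense_j1 (hm : 1 ≤ m) (j : Fin k) (ha : a 0 = a j.succ) :
    ∃ δ : MvPolynomial (Ix a) ℚ, δ ≠ 0 ∧
    ∀ (K κ : Type) [Field K] [Algebra ℚ K] [Field κ] [CharZero κ] [IsAlgClosed κ] [Algebra K κ]
      (c : Ix a → K), aeval c δ ≠ 0 → ∀ b : Bx j m → κ,
      Function.Injective (aeval b : MvPolynomial (Bx j m) K →ₐ[K] κ) →
      ∀ X : Fin (k + 1) → I m → κ,
      (∀ (l : Fin k) (hl : l ≠ j), X l.succ = aff fun i => b (⟨l, hl⟩, i)) →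
      (Db (fun e => algebraMap K κ (c e)) j X).Dense ∧
        (Db (fun e => algebraMap K κ (c e)) j X).swap.Dense := by
  obtain ⟨Δ, hΔ, h⟩ := Pool.Agent.Helper23.HNG.dense_both hm
  obtain ⟨δ, hδ, h2⟩ := core (a := a) (m := m) j
    (fun (S : Type) [CommRing S] (c : Ix a → S) (X : Fin (k + 1) → I m → S) => cs1 c j X)
    (fun S T _ _ f c X e => map_cs1 c j X f e)
    (fun S _ c X X' hX => cs1_congr c j hX)
    (fun X hX c0 => exists_cs1 j ha hX c0) hΔ
  refine ⟨δ, hδ, ?_⟩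
  intro K κ _ _ _ _ _ _ c hc b hb X hX
  have h3 := h κ _ (h2 K κ c b hb X hX hc)
  exact dense1 _ j X ha h3.1 h3.2

theorem dense_j2 (hm : 1 ≤ m) (j : Fin k) (ha : a 0 ≠ a j.succ) :
    ∃ δ : MvPolynomial (Ix a) ℚ, δ ≠ 0 ∧
    ∀ (K κ : Type) [Field K] [Algebra ℚ K] [Field κ] [CharZero κ] [IsAlgClosed κ] [Algebra K κ]
      (c : Ix a → K), aeval c δ ≠ 0 → ∀ b : Bx j m → κ,
      Function.Injective (aeval b : MvPolynomial (Bx j m) K →ₐ[K] κ) →
      ∀ X : Fin (k + 1) → I m → κ,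
      (∀ (l : Fin k) (hl : l ≠ j), X l.succ = aff fun i => b (⟨l, hl⟩, i)) →
      (Db (fun e => algebraMap K κ (c e)) j X).Dense ∧
        (Db (fun e => algebraMap K κ (c e)) j X).swap.Dense := by
  obtain ⟨Δ, hΔ, h⟩ := Pool.Agent.Helper23.H2.dense_both hm
  obtain ⟨δ, hδ, h2⟩ := core (a := a) (m := m) j
    (fun (S : Type) [CommRing S] (c : Ix a → S) (X : Fin (k + 1) → I m → S) => cs2 c j X ha)
    (fun S T _ _ f c X e => map_cs2 c j X f ha e)
    (fun S _ c X X' hX => cs2_congr c j ha hX)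
    (fun X hX c0 => exists_cs2 j ha hX c0) hΔ
  refine ⟨δ, hδ, ?_⟩
  intro K κ _ _ _ _ _ _ c hc b hb X hX
  have h3 := h κ _ (h2 K κ c b hb X hX hc)
  exact dense2 _ j X ha h3.1 h3.2

/-- For general coefficients, all factors: density over the generic point of the other factors. -/
theorem dense_gen1 (hm : 1 ≤ m) (a : Fin (k + 1) → Fin (m + 1)) :
    ∃ δ : MvPolynomial (Ix a) ℚ, δ ≠ 0 ∧
    ∀ (K κ : Type) [Field K] [Algebra ℚ K] [Field κ] [CharZero κ] [IsAlgClosed κ] [Algebra K κ]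
      (c : Ix a → K), aeval c δ ≠ 0 → ∀ (j : Fin k) (b : Bx j m → κ),
      Function.Injective (aeval b : MvPolynomial (Bx j m) K →ₐ[K] κ) →
      ∀ X : Fin (k + 1) → I m → κ,
      (∀ (l : Fin k) (hl : l ≠ j), X l.succ = aff fun i => b (⟨l, hl⟩, i)) →
      (Db (fun e => algebraMap K κ (c e)) j X).Dense ∧
        (Db (fun e => algebraMap K κ (c e)) j X).swap.Dense := by
  have h : ∀ j : Fin k, ∃ δ : MvPolynomial (Ix a) ℚ, δ ≠ 0 ∧
    ∀ (K κ : Type) [Field K] [Algebra ℚ K] [Field κ] [CharZero κ] [IsAlgClosed κ] [Algebra K κ]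
      (c : Ix a → K), aeval c δ ≠ 0 → ∀ b : Bx j m → κ,
      Function.Injective (aeval b : MvPolynomial (Bx j m) K →ₐ[K] κ) →
      ∀ X : Fin (k + 1) → I m → κ,
      (∀ (l : Fin k) (hl : l ≠ j), X l.succ = aff fun i => b (⟨l, hl⟩, i)) →
      (Db (fun e => algebraMap K κ (c e)) j X).Dense ∧
        (Db (fun e => algebraMap K κ (c e)) j X).swap.Dense := by
    intro j
    by_cases ha : a 0 = a j.succ
    · exact dense_j1 hm j ha
    · exact dense_j2 hm j ha
  choose δ hδ h2 using h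
  refine ⟨∏ j, δ j, Finset.prod_ne_zero_iff.2 fun j _ => hδ j, ?_⟩
  intro K κ _ _ _ _ _ _ c hc j b hb X hX
  refine h2 j K κ c ?_ b hb X hX
  rw [map_prod] at hc
  exact Finset.prod_ne_zero_iff.1 hc j (Finset.mem_univ j)

/-- The same for `2 ≤ m`. -/
theorem dense_gen (hm : 2 ≤ m) (a : Fin (k + 1) → Fin (m + 1)) :
    ∃ δ : MvPolynomial (Ix a) ℚ, δ ≠ 0 ∧
    ∀ (K κ : Type) [Field K] [Algebra ℚ K] [Field κ] [CharZero κ] [IsAlgClosed κ] [Algebra K κ]
      (c : Ix a → K), aeval c δ ≠ 0 → ∀ (j : Fin k) (b : Bx j m → κ),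
      Function.Injective (aeval b : MvPolynomial (Bx j m) K →ₐ[K] κ) →
      ∀ X : Fin (k + 1) → I m → κ,
      (∀ (l : Fin k) (hl : l ≠ j), X l.succ = aff fun i => b (⟨l, hl⟩, i)) →
      (Db (fun e => algebraMap K κ (c e)) j X).Dense ∧
        (Db (fun e => algebraMap K κ (c e)) j X).swap.Dense :=
  dense_gen1 (by omega) a

end Pool.Agent.Helper23.HK
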