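import Pool.Agent.Helper64.HK.Lin
import Pool.Agent.Helper23.HNG.Dens
import Pool.Agent.Helper23.H2.Dens

set_option autoImplicit false
set_option linter.unusedVariables false
set_option linter.unusedSectionVars false

/-!
# Bridge: two factors `0` and `j.succ` of `(P^(m+1))^(k+1)`, the other factors are fixed

`cs1 c j X` (if `a 0 = a j.succ`) and `cs2 c j X` (if not): the coefficients of the complete
intersection in `P^(m+1) × P^(m+1)` with `x` the factor `j.succ` and `y` the factor `0`.
-/

namespace Pool.Agent.Helper23.HK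

open Pool.Agent.Helper28.HN (I aff)
open Pool.Agent.Helper64.HK
open Function Finset

variable {k m : ℕ} {a : Fin (k + 1) → Fin (m + 1)} {S : Type*} [CommRing S]

/-- The point with `x` in the factor `j.succ` and `y` in the factor `0`. -/
def Z (j : Fin k) (X : Fin (k + 1) → I m → S) (x y : I m → S) : Fin (k + 1) → I m → S :=
  update (update X j.succ x) 0 y

theorem Z_zero (j : Fin k) (X : Fin (k + 1) → I m → S) (x y : I m → S) : Z j X x y 0 = y :=
  update_self _ _ _

theorem Z_succ (j : Fin k) (X : Fin (k + 1) → I m → S) (x y : I m → S) :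
    Z j X x y j.succ = x := by
  unfold Z
  rw [update_of_ne (Fin.succ_ne_zero j), update_self]

theorem Z_other (j : Fin k) (X : Fin (k + 1) → I m → S) (x y : I m → S) {l : Fin (k + 1)}
    (h0 : l ≠ 0) (h1 : l ≠ j.succ) : Z j X x y l = X l := by
  unfold Z
  rw [update_of_ne h0, update_of_ne h1]

theorem Z_self (j : Fin k) (X : Fin (k + 1) → I m → S) : Z j X (X j.succ) (X 0) = X := by
  unfold Z
  rw [update_eq_self, update_eq_self]

theorem Z_y (j : Fin k) (X : Fin (k + 1) → I m → S) (x y y' : I m → S) :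
    Z j X x y' = update (Z j X x y) 0 y' := by
  unfold Z
  rw [update_idem]

theorem Z_x (j : Fin k) (X : Fin (k + 1) → I m → S) (x x' y : I m → S) :
    Z j X x' y = update (Z j X x y) j.succ x' := by
  unfold Z
  rw [update_comm (Fin.succ_ne_zero j) , update_comm (Fin.succ_ne_zero j), update_idem]

/-- Expansion of a linear function. -/
theorem lin_sum {f : (I m → S) → S}
    (h : ∀ (α β : S) (v w : I m → S), f (fun l => α * v l + β * w l) = α * f v + β * f w)
    (v : I m → S) : f v = ∑ i, f (Pi.single i 1) * v i := by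
  let g : (I m → S) →ₗ[S] S :=
    { toFun := f
      map_add' := fun v w => by
        have := h 1 1 v w
        simp only [one_mul] at this
        exact this
      map_smul' := fun c v => by
        have := h c 0 v v
        simp only [zero_mul, add_zero] at this
        exact this }
  have h1 := LinearMap.pi_apply_eq_sum_univ g v
  refine h1.trans (Finset.sum_congr rfl fun i _ => ?_)
  rw [smul_eq_mul, mul_comm]
  refine congrArg (· * v i) (congrArg f ?_)
  funext l
  by_cases hl : l = i
  · subst hl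
    simp
  · simp [hl, Ne.symm hl]

variable (c : Ix a → S) (j : Fin k) (X : Fin (k + 1) → I m → S)

theorem U_y (i : Fin (m + 1)) (V : Fin (k + 1) → I m → S) (x y : I m → S) :
    Mf c i (Z j X x y) V = ∑ l, Mf c i (Z j X x (Pi.single l 1)) V * y l := by
  refine lin_sum (f := fun y => Mf c i (Z j X x y) V) (fun α β v w => ?_) y
  simp only [Z]
  exact Mf_U c i _ V 0 α β v w

theorem U_x (i : Fin (m + 1)) (V : Fin (k + 1) → I m → S) (x y : I m → S) :
    Mf c i (Z j X x y) V = ∑ l, Mf c i (Z j X (Pi.single l 1) y) V * x l := by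
  refine lin_sum (f := fun x => Mf c i (Z j X x y) V) (fun α β v w => ?_) x
  simp only [Z]
  rw [update_comm (Fin.succ_ne_zero j), update_comm (Fin.succ_ne_zero j),
    update_comm (Fin.succ_ne_zero j)]
  exact Mf_U c i _ V j.succ α β v w

theorem V_y {i : Fin (m + 1)} (hi : a 0 = i) (U : Fin (k + 1) → I m → S) (x y : I m → S) :
    Mf c i U (Z j X x y) = ∑ l, Mf c i U (Z j X x (Pi.single l 1)) * y l := by
  refine lin_sum (f := fun y => Mf c i U (Z j X x y)) (fun α β v w => ?_) y
  simp only [Z]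
  exact Mf_V c i U _ 0 hi α β v w

theorem V_x {i : Fin (m + 1)} (hi : a j.succ = i) (U : Fin (k + 1) → I m → S) (x y : I m → S) :
    Mf c i U (Z j X x y) = ∑ l, Mf c i U (Z j X (Pi.single l 1) y) * x l := by
  refine lin_sum (f := fun x => Mf c i U (Z j X x y)) (fun α β v w => ?_) x
  simp only [Z]
  rw [update_comm (Fin.succ_ne_zero j), update_comm (Fin.succ_ne_zero j),
    update_comm (Fin.succ_ne_zero j)]
  exact Mf_V c i U _ j.succ hi α β v w

theorem V_y_ne {i : Fin (m + 1)} (hi : a 0 ≠ i) (U : Fin (k + 1) → I m → S) (x y y' : I m → S) :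
    Mf c i U (Z j X x y) = Mf c i U (Z j X x y') := by
  unfold Z
  rw [Mf_V_ne c i U _ 0 hi, Mf_V_ne c i U _ 0 hi]

theorem V_x_ne {i : Fin (m + 1)} (hi : a j.succ ≠ i) (U : Fin (k + 1) → I m → S)
    (x x' y : I m → S) : Mf c i U (Z j X x y) = Mf c i U (Z j X x' y) := by
  unfold Z
  rw [update_comm (Fin.succ_ne_zero j), update_comm (Fin.succ_ne_zero j),
    Mf_V_ne c i U _ j.succ hi, Mf_V_ne c i U _ j.succ hi]

/-- A form which is bilinear in the two factors. -/
theorem Ef_bil {i : Fin (m + 1)} (h0 : a 0 ≠ i) (h1 : a j.succ ≠ i) (x y : I m → S) :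
    Ef c i (Z j X x y) = ∑ p, ∑ q, Ef c i (Z j X (Pi.single p 1) (Pi.single q 1)) * x p * y q := by
  have e : ∀ x y x' y', Mf c i (Z j X x y) (Z j X x y) = Mf c i (Z j X x y) (Z j X x' y') := by
    intro x y x' y'
    rw [V_y_ne c j X h0 _ x y y', V_x_ne c j X h1 _ x x' y']
  unfold Ef
  rw [e x y 0 0, U_x]
  refine Finset.sum_congr rfl fun p _ => ?_
  rw [U_y, Finset.sum_mul]
  refine Finset.sum_congr rfl fun q _ => ?_
  rw [e _ _ 0 0]
  ring

/-! ### Type 1 -/

/-- The coefficients, type 1. -/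
noncomputable def cs1 : Pool.Agent.Helper28.HN.Ix m → S
  | .inl (r, p, q) => Ef c ((a 0).succAbove r) (Z j X (Pi.single p 1) (Pi.single q 1))
  | .inr (p, p', q, q') => Mf c (a 0) (Z j X (Pi.single p 1) (Pi.single q 1))
      (Z j X (Pi.single p' 1) (Pi.single q' 1))

theorem lf_cs1 (h : a 0 = a j.succ) (r : Fin m) (x y : I m → S) :
    Pool.Agent.Helper28.HN.lf (cs1 c j X) r x y = Ef c ((a 0).succAbove r) (Z j X x y) := by
  rw [Ef_bil c j X (Fin.succAbove_ne _ _).symm (h ▸ (Fin.succAbove_ne _ _).symm)]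
  rfl

/-- Symmetrisation. -/
theorem sym4 (t : I m → I m → I m → I m → S) (x y : I m → S) :
    ∑ i, ∑ j, ∑ k, ∑ l, (t i j k l + t j i k l + t i j l k + t j i l k) * x i * x j * y k * y l =
      4 * ∑ i, ∑ j, ∑ k, ∑ l, t i j k l * x i * x j * y k * y l := by
  have e1 : ∑ i, ∑ j, ∑ k, ∑ l, t j i k l * x i * x j * y k * y l =
      ∑ i, ∑ j, ∑ k, ∑ l, t i j k l * x i * x j * y k * y l := by
    rw [Finset.sum_comm]
    exact Finset.sum_congr rfl fun i _ => Finset.sum_congr rfl fun j _ =>
      Finset.sum_congr rfl fun k _ => Finset.sum_congr rfl fun l _ => by ring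
  have e2 : ∑ i, ∑ j, ∑ k, ∑ l, t i j l k * x i * x j * y k * y l =
      ∑ i, ∑ j, ∑ k, ∑ l, t i j k l * x i * x j * y k * y l := by
    refine Finset.sum_congr rfl fun i _ => Finset.sum_congr rfl fun j _ => ?_
    rw [Finset.sum_comm]
    exact Finset.sum_congr rfl fun k _ => Finset.sum_congr rfl fun l _ => by ring
  have e3 : ∑ i, ∑ j, ∑ k, ∑ l, t j i l k * x i * x j * y k * y l =
      ∑ i, ∑ j, ∑ k, ∑ l, t i j k l * x i * x j * y k * y l := by
    rw [← e2, Finset.sum_comm]
    exact Finset.sum_congr rfl fun i _ => Finset.sum_congr rfl fun j _ =>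
      Finset.sum_congr rfl fun k _ => Finset.sum_congr rfl fun l _ => by ring
  simp only [add_mul, Finset.sum_add_distrib]
  rw [e1, e2, e3]
  ring

theorem qf_cs1 (h : a 0 = a j.succ) (x y : I m → S) :
    Pool.Agent.Helper28.HN.qf (cs1 c j X) x x y y = 4 * Ef c (a 0) (Z j X x y) := by
  have h1 : Ef c (a 0) (Z j X x y) = ∑ p, ∑ p', ∑ q, ∑ q',
      Mf c (a 0) (Z j X (Pi.single p 1) (Pi.single q 1))
        (Z j X (Pi.single p' 1) (Pi.single q' 1)) * x p * x p' * y q * y q' := by
    unfold Ef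
    rw [U_x]
    refine Finset.sum_congr rfl fun p _ => ?_
    rw [V_x c j X h.symm, Finset.sum_mul]
    refine Finset.sum_congr rfl fun p' _ => ?_
    rw [U_y, Finset.sum_mul, Finset.sum_mul]
    refine Finset.sum_congr rfl fun q _ => ?_
    rw [V_y c j X rfl, Finset.sum_mul, Finset.sum_mul, Finset.sum_mul]
    refine Finset.sum_congr rfl fun q' _ => ?_
    ring
  rw [h1]
  exact sym4 (fun p p' q q' => Mf c (a 0) (Z j X (Pi.single p 1) (Pi.single q 1))
        (Z j X (Pi.single p' 1) (Pi.single q' 1))) x y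

/-! ### Type 2 -/

theorem card_eq {α β : Fin (m + 1)} (h : α ≠ β) :
    Fintype.card (Pool.Agent.Helper24.H2.Bi m) =
      Fintype.card {i : Fin (m + 1) // i ≠ α ∧ i ≠ β} := by
  classical
  have h1 : Fintype.card {i : Fin (m + 1) // i ≠ α ∧ i ≠ β} = m - 1 := by
    rw [Fintype.card_subtype]
    have e : (Finset.univ.filter fun i : Fin (m + 1) => i ≠ α ∧ i ≠ β) =
        (Finset.univ.erase α).erase β := by
      ext i
      simp only [Finset.mem_filter, Finset.mem_univ, true_and, Finset.mem_erase]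
      tauto
    rw [e, Finset.card_erase_of_mem, Finset.card_erase_of_mem (Finset.mem_univ _),
      Finset.card_univ, Fintype.card_fin]
    · rfl
    · exact Finset.mem_erase.2 ⟨h.symm, Finset.mem_univ _⟩
  have h2 : Fintype.card (Pool.Agent.Helper24.H2.Bi m) = m - 1 := by
    rcases m with _ | n
    · exact Fintype.card_eq_zero_iff.2 ⟨fun r => r.1.elim0⟩
    · have e : Pool.Agent.Helper24.H2.Bi (n + 1) ≃ Fin n :=
        { toFun := fun r => ⟨r.1.val, by have := r.2; omega⟩
          invFun := fun r => ⟨r.castSucc, by simp⟩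
          left_inv := fun r => by
            apply Subtype.ext
            apply Fin.ext
            rfl
          right_inv := fun r => by
            apply Fin.ext
            rfl }
      rw [Fintype.card_congr e, Fintype.card_fin]
      rfl
  rw [h1, h2]

/-- The numbers of the bilinear forms. -/
noncomputable def be {α β : Fin (m + 1)} (h : α ≠ β) :
    Pool.Agent.Helper24.H2.Bi m ≃ {i : Fin (m + 1) // i ≠ α ∧ i ≠ β} :=
  Fintype.equivOfCardEq (card_eq h)

/-- The coefficients, type 2. -/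
noncomputable def cs2 (h : a 0 ≠ a j.succ) : Pool.Agent.Helper24.H2.Ix m → S
  | .inl (r, p, q) => Ef c (be h r).1 (Z j X (Pi.single p 1) (Pi.single q 1))
  | .inr (.inl (p, p', q)) => Mf c (a j.succ) (Z j X (Pi.single p 1) (Pi.single q 1))
      (Z j X (Pi.single p' 1) 0)
  | .inr (.inr (p, q, q')) => Mf c (a 0) (Z j X (Pi.single p 1) (Pi.single q 1))
      (Z j X 0 (Pi.single q' 1))

variable (h : a 0 ≠ a j.succ)

theorem bf_cs2 (r : Pool.Agent.Helper24.H2.Bi m) (x y : I m → S) :
    Pool.Agent.Helper24.H2.bf (cs2 c j X h) r x y = Ef c (be h r).1 (Z j X x y) := by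
  rw [Ef_bil c j X (be h r).2.1.symm (be h r).2.2.symm]
  rfl

theorem sf_cs2 (x y : I m → S) :
    Pool.Agent.Helper24.H2.sf (cs2 c j X h) x x y = 2 * Ef c (a j.succ) (Z j X x y) := by
  have h1 : Ef c (a j.succ) (Z j X x y) = ∑ p, ∑ p', ∑ q,
      Mf c (a j.succ) (Z j X (Pi.single p 1) (Pi.single q 1))
        (Z j X (Pi.single p' 1) 0) * x p * x p' * y q := by
    unfold Ef
    rw [U_x]
    refine Finset.sum_congr rfl fun p _ => ?_
    rw [V_x c j X rfl, Finset.sum_mul]
    refine Finset.sum_congr rfl fun p' _ => ?_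
    rw [U_y, Finset.sum_mul, Finset.sum_mul]
    refine Finset.sum_congr rfl fun q _ => ?_
    rw [V_y_ne c j X h _ _ y 0]
    ring
  have h2 : ∑ p, ∑ p', ∑ q, Mf c (a j.succ) (Z j X (Pi.single p' 1) (Pi.single q 1))
        (Z j X (Pi.single p 1) 0) * x p * x p' * y q = ∑ p, ∑ p', ∑ q,
      Mf c (a j.succ) (Z j X (Pi.single p 1) (Pi.single q 1))
        (Z j X (Pi.single p' 1) 0) * x p * x p' * y q := by
    rw [Finset.sum_comm]
    exact Finset.sum_congr rfl fun i _ => Finset.sum_congr rfl fun j _ =>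
      Finset.sum_congr rfl fun k _ => by ring
  unfold Pool.Agent.Helper24.H2.sf
  simp only [add_mul, Finset.sum_add_distrib]
  rw [h1, two_mul]
  refine congrArg₂ (· + ·) rfl ?_
  exact h2

theorem tf_cs2 (x y : I m → S) :
    Pool.Agent.Helper24.H2.tf (cs2 c j X h) x y y = 2 * Ef c (a 0) (Z j X x y) := by
  have h1 : Ef c (a 0) (Z j X x y) = ∑ p, ∑ q, ∑ q',
      Mf c (a 0) (Z j X (Pi.single p 1) (Pi.single q 1))
        (Z j X 0 (Pi.single q' 1)) * x p * y q * y q' := by
    unfold Ef
    rw [U_x]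
    refine Finset.sum_congr rfl fun p _ => ?_
    rw [U_y, Finset.sum_mul]
    refine Finset.sum_congr rfl fun q _ => ?_
    rw [V_y c j X rfl, Finset.sum_mul, Finset.sum_mul]
    refine Finset.sum_congr rfl fun q' _ => ?_
    rw [V_x_ne c j X h.symm _ x 0]
    ring
  have h2 : ∑ p, ∑ q, ∑ q', Mf c (a 0) (Z j X (Pi.single p 1) (Pi.single q' 1))
        (Z j X 0 (Pi.single q 1)) * x p * y q * y q' = ∑ p, ∑ q, ∑ q',
      Mf c (a 0) (Z j X (Pi.single p 1) (Pi.single q 1))
        (Z j X 0 (Pi.single q' 1)) * x p * y q * y q' := by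
    refine Finset.sum_congr rfl fun p _ => ?_
    rw [Finset.sum_comm]
    exact Finset.sum_congr rfl fun i _ => Finset.sum_congr rfl fun j _ => by ring
  unfold Pool.Agent.Helper24.H2.tf
  simp only [add_mul, Finset.sum_add_distrib]
  rw [h1, two_mul]
  refine congrArg₂ (· + ·) rfl ?_
  exact h2

end Pool.Agent.Helper23.HK
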