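import Pool.Agent.Helper23.HK.Surj

set_option autoImplicit false
set_option linter.unusedVariables false
set_option linter.unusedSectionVars false

/-!
# The two double coverings of the factors `0` and `j.succ`, over the other factors

`Gb c j X`: the forms in the factor `0` (symmetric product of the two points of the factor `j.succ`),
`Gb' c j X`: the forms in the factor `j.succ` (symmetric product of the two points of the factor `0`),
of degree `eb a j`. `Db c j X`: the two double coverings.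
-/

namespace Pool.Agent.Helper23.HK

open MvPolynomial
open Pool.Agent.Helper28.HN (I aff)
open Pool.Agent.Helper64.HK
open Function
open Pool.Agent.Helper47.NI (Dbl)

variable {k m : ℕ} {a : Fin (k + 1) → Fin (m + 1)}

/-- The degree of the forms. -/
def eb (a : Fin (k + 1) → Fin (m + 1)) (j : Fin k) : ℕ :=
  if a 0 = a j.succ then 2 * m + 2 else 2 * m + 3

theorem one_le_of_ne {α β : Fin (m + 1)} (h : α ≠ β) : 1 ≤ m := by
  rcases m with _ | m
  · exact absurd (Fin.ext (by omega)) h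
  · omega

section ring

variable {S : Type*} [CommRing S] (c : Ix a → S) (j : Fin k) (X : Fin (k + 1) → I m → S)

/-- The symmetric product of the two points of the factor `j.succ`, forms in the factor `0`. -/
noncomputable def Gb (p : I m × I m) : MvPolynomial (I m) S :=
  if h : a 0 = a j.succ then Pool.Agent.Helper28.HN.cG (cs1 c j X) p
  else Pool.Agent.Helper24.H2.cG (cs2 c j X h) p

/-- The symmetric product of the two points of the factor `0`, forms in the factor `j.succ`. -/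
noncomputable def Gb' (p : I m × I m) : MvPolynomial (I m) S :=
  if h : a 0 = a j.succ then
    Pool.Agent.Helper28.HN.cG (Pool.Agent.Helper23.HNG.swc (cs1 c j X)) p
  else Pool.Agent.Helper24.H2.cG (Pool.Agent.Helper23.H2.swc (cs2 c j X h)) p

theorem Gb_congr {X X' : Fin (k + 1) → I m → S} (h : ∀ l, l ≠ 0 → l ≠ j.succ → X l = X' l) :
    Gb c j X = Gb c j X' := by
  funext p
  unfold Gb
  split_ifs with ha
  · rw [cs1_congr c j h]
  · rw [cs2_congr c j ha h]

theorem Gb'_congr {X X' : Fin (k + 1) → I m → S} (h : ∀ l, l ≠ 0 → l ≠ j.succ → X l = X' l) :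
    Gb' c j X = Gb' c j X' := by
  funext p
  unfold Gb'
  split_ifs with ha
  · rw [cs1_congr c j h]
  · rw [cs2_congr c j ha h]

theorem isHomogeneous_Gb (p : I m × I m) : (Gb c j X p).IsHomogeneous (eb a j) := by
  unfold Gb eb
  split_ifs with h
  · exact Pool.Agent.Helper23.HNG.isHomogeneous_cG _ p
  · exact Pool.Agent.Helper23.H2.isHomogeneous_cG (one_le_of_ne h) _ p

theorem isHomogeneous_Gb' (p : I m × I m) : (Gb' c j X p).IsHomogeneous (eb a j) := by
  unfold Gb' eb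
  split_ifs with h
  · exact Pool.Agent.Helper23.HNG.isHomogeneous_cG _ p
  · exact Pool.Agent.Helper23.H2.isHomogeneous_cG (one_le_of_ne h) _ p

variable {T : Type*} [CommRing T] (f : S →+* T)

theorem map_Gb (p : I m × I m) : MvPolynomial.map f (Gb c j X p) =
    Gb (fun e => f (c e)) j (fun l i => f (X l i)) p := by
  unfold Gb
  split_ifs with h
  · rw [Pool.Agent.Helper23.HNG.map_cG]
    simp only [map_cs1]
  · rw [Pool.Agent.Helper23.H2.map_cG]
    simp only [map_cs2]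

theorem map_Gb' (p : I m × I m) : MvPolynomial.map f (Gb' c j X p) =
    Gb' (fun e => f (c e)) j (fun l i => f (X l i)) p := by
  unfold Gb'
  split_ifs with h
  · rw [Pool.Agent.Helper23.HNG.map_cG]
    simp only [Pool.Agent.Helper23.HNG.swc, map_cs1]
    rfl
  · rw [Pool.Agent.Helper23.H2.map_cG]
    simp only [Pool.Agent.Helper23.H2.swc, map_cs2]
    rfl

end ring

section field

variable {F : Type*} [Field F] [CharZero F] (c : Ix a → F) (j : Fin k)
  (X : Fin (k + 1) → I m → F)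

/-- The second point of the factor `j.succ`. -/
theorem exists_x {x y : I m → F} (hx : x ≠ 0) (h : OnX c (Z j X x y))
    (hG : ∃ p, eval y (Gb c j X p) ≠ 0) :
    ∃ x', x' ≠ 0 ∧ OnX c (Z j X x' y) ∧
      ∀ p, eval y (Gb c j X p) = Pool.Agent.Helper47.NI.pr x x' p := by
  unfold Gb at hG ⊢
  split_ifs at hG ⊢ with ha
  · simp only [Pool.Agent.Helper23.HNG.eval_cG] at hG ⊢
    obtain ⟨x', h1, h2, h3⟩ := Pool.Agent.Helper23.HNG.exists_snd (cs1 c j X) hx
      ((onX_cs1 c j X ha x y).1 h) hG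
    exact ⟨x', h1, (onX_cs1 c j X ha x' y).2 h2, h3⟩
  · simp only [Pool.Agent.Helper23.H2.eval_cG] at hG ⊢
    obtain ⟨x', h1, h2, h3⟩ := Pool.Agent.Helper23.H2.exists_snd (one_le_of_ne ha)
      (cs2 c j X ha) hx ((onX_cs2 c j X ha x y).1 h) hG
    exact ⟨x', h1, (onX_cs2 c j X ha x' y).2 h2, h3⟩

/-- The second point of the factor `0`. -/
theorem exists_y {x y : I m → F} (hy : y ≠ 0) (h : OnX c (Z j X x y))
    (hG : ∃ p, eval x (Gb' c j X p) ≠ 0) :
    ∃ y', y' ≠ 0 ∧ OnX c (Z j X x y') ∧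
      ∀ p, eval x (Gb' c j X p) = Pool.Agent.Helper47.NI.pr y y' p := by
  unfold Gb' at hG ⊢
  split_ifs at hG ⊢ with ha
  · simp only [Pool.Agent.Helper23.HNG.eval_cG] at hG ⊢
    obtain ⟨y', h1, h2, h3⟩ := Pool.Agent.Helper23.HNG.exists_snd
      (Pool.Agent.Helper23.HNG.swc (cs1 c j X)) hy
      ((Pool.Agent.Helper23.HNG.onX_sw _ x y).2 ((onX_cs1 c j X ha x y).1 h)) hG
    exact ⟨y', h1, (onX_cs1 c j X ha x y').2 ((Pool.Agent.Helper23.HNG.onX_sw _ x y').1 h2), h3⟩
  · simp only [Pool.Agent.Helper23.H2.eval_cG] at hG ⊢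
    obtain ⟨y', h1, h2, h3⟩ := Pool.Agent.Helper23.H2.exists_snd (one_le_of_ne ha)
      (Pool.Agent.Helper23.H2.swc (cs2 c j X ha)) hy
      ((Pool.Agent.Helper23.H2.onX_sw _ x y).2 ((onX_cs2 c j X ha x y).1 h)) hG
    exact ⟨y', h1, (onX_cs2 c j X ha x y').2 ((Pool.Agent.Helper23.H2.onX_sw _ x y').1 h2), h3⟩

/-- The second point of the factor `j.succ`, all cases. -/
theorem second_x (h : OnX c X) (hx : X j.succ ≠ 0) :
    ∃ x', x' ≠ 0 ∧ OnX c (update X j.succ x') ∧
      ∃ t : F, ∀ p, eval (X 0) (Gb c j X p) = t * Pool.Agent.Helper47.NI.pr (X j.succ) x' p := by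
  have h0 : OnX c (Z j X (X j.succ) (X 0)) := by rwa [Z_self]
  by_cases hG : ∃ p, eval (X 0) (Gb c j X p) ≠ 0
  · obtain ⟨x', h1, h2, h3⟩ := exists_x c j X hx h0 hG
    refine ⟨x', h1, ?_, 1, fun p => by rw [h3, one_mul]⟩
    have e : Z j X x' (X 0) = update X j.succ x' := by
      rw [Z_x j X (X j.succ) x' (X 0), Z_self]
    rwa [e] at h2
  · push Not at hG
    exact ⟨X j.succ, hx, by rwa [update_eq_self], 0, fun p => by rw [hG, zero_mul]⟩

/-- The second point of the factor `0`, all cases. -/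
theorem second_y (h : OnX c X) (hy : X 0 ≠ 0) :
    ∃ y', y' ≠ 0 ∧ OnX c (update X 0 y') ∧
      ∃ t : F, ∀ p, eval (X j.succ) (Gb' c j X p) = t * Pool.Agent.Helper47.NI.pr (X 0) y' p := by
  have h0 : OnX c (Z j X (X j.succ) (X 0)) := by rwa [Z_self]
  by_cases hG : ∃ p, eval (X j.succ) (Gb' c j X p) ≠ 0
  · obtain ⟨y', h1, h2, h3⟩ := exists_y c j X hy h0 hG
    refine ⟨y', h1, ?_, 1, fun p => by rw [h3, one_mul]⟩
    have e : Z j X (X j.succ) y' = update X 0 y' := by
      rw [Z_y j X (X j.succ) (X 0) y', Z_self]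
    rwa [e] at h2
  · push Not at hG
    exact ⟨X 0, hy, by rwa [update_eq_self], 0, fun p => by rw [hG, zero_mul]⟩

end field

section dbl

universe u

variable {F : Type u} [Field F] [CharZero F] [IsAlgClosed F] (c : Ix a → F) (j : Fin k)
  (X : Fin (k + 1) → I m → F)

/-- The two double coverings. -/
noncomputable def Db : Dbl F (m + 2) (eb a j) where
  G := Gb c j X
  G' := Gb' c j X
  hG := isHomogeneous_Gb c j X
  hG' := isHomogeneous_Gb' c j X
  S := {z | z.1 ≠ 0 ∧ z.2 ≠ 0 ∧ OnX c (Z j X z.1 z.2)}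
  ne1 := fun h => h.1
  ne2 := fun h => h.2.1
  sx := by
    rintro x y ⟨hx, hy, h⟩ hp
    obtain ⟨x', h1, h2, h3⟩ := exists_x c j X hx h hp
    exact ⟨x', ⟨h1, hy, h2⟩, h3⟩
  sy := by
    rintro x y ⟨hx, hy, h⟩ hp
    obtain ⟨y', h1, h2, h3⟩ := exists_y c j X hy h hp
    exact ⟨y', ⟨hx, h1, h2⟩, h3⟩
  ex := by
    rintro y hy hp
    unfold Gb at hp
    split_ifs at hp with ha
    · simp only [Pool.Agent.Helper23.HNG.eval_cG] at hp
      obtain ⟨x, h1, h2⟩ := Pool.Agent.Helper23.HNG.exists_fst _ hp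
      exact ⟨x, h1, hy, (onX_cs1 c j X ha x y).2 h2⟩
    · simp only [Pool.Agent.Helper23.H2.eval_cG] at hp
      obtain ⟨x, h1, h2⟩ := Pool.Agent.Helper23.H2.exists_fst (one_le_of_ne ha) _ hp
      exact ⟨x, h1, hy, (onX_cs2 c j X ha x y).2 h2⟩
  ex' := by
    rintro x hx hp
    unfold Gb' at hp
    split_ifs at hp with ha
    · simp only [Pool.Agent.Helper23.HNG.eval_cG] at hp
      obtain ⟨y, h1, h2⟩ := Pool.Agent.Helper23.HNG.exists_fst _ hp
      exact ⟨y, hx, h1, (onX_cs1 c j X ha x y).2 ((Pool.Agent.Helper23.HNG.onX_sw _ x y).1 h2)⟩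
    · simp only [Pool.Agent.Helper23.H2.eval_cG] at hp
      obtain ⟨y, h1, h2⟩ := Pool.Agent.Helper23.H2.exists_fst (one_le_of_ne ha) _ hp
      exact ⟨y, hx, h1, (onX_cs2 c j X ha x y).2 ((Pool.Agent.Helper23.H2.onX_sw _ x y).1 h2)⟩

theorem Db_G : (Db c j X).G = Gb c j X := rfl

theorem Db_G' : (Db c j X).G' = Gb' c j X := rfl

theorem mem_Db {x y : I m → F} :
    (x, y) ∈ (Db c j X).S ↔ x ≠ 0 ∧ y ≠ 0 ∧ OnX c (Z j X x y) := Iff.rfl

theorem dense_congr {n e e' : ℕ} {D : Dbl F n e} {D' : Dbl F n e'} (hG : D.G = D'.G)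
    (hG' : D.G' = D'.G') (hS : D.S = D'.S) (h : D.Dense) : D'.Dense := by
  intro w hw P hP
  refine h w hw P fun y hy hg hyw => hP y hy ?_ hyw
  unfold Dbl.Good at hg ⊢
  rwa [← hG, ← hG', ← hS]

theorem dense_congr' {n e e' : ℕ} {D : Dbl F n e} {D' : Dbl F n e'} (hG : D.G = D'.G)
    (hG' : D.G' = D'.G') (hS : D.S = D'.S) (h : D.swap.Dense) : D'.swap.Dense := by
  refine dense_congr (D := D.swap) (D' := D'.swap) hG' hG ?_ h
  change {z : (Fin n → F) × (Fin n → F) | (z.2, z.1) ∈ D.S} = {z | (z.2, z.1) ∈ D'.S}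
  rw [hS]

theorem dense1 (ha : a 0 = a j.succ) (h : (Pool.Agent.Helper23.HNG.dblX (cs1 c j X)).Dense)
    (h' : (Pool.Agent.Helper23.HNG.dblX (cs1 c j X)).swap.Dense) :
    (Db c j X).Dense ∧ (Db c j X).swap.Dense := by
  have hG : (Pool.Agent.Helper23.HNG.dblX (cs1 c j X)).G = (Db c j X).G := by
    funext p
    rw [Db_G, Pool.Agent.Helper23.HNG.dblX_G, Gb, dif_pos ha]
  have hG' : (Pool.Agent.Helper23.HNG.dblX (cs1 c j X)).G' = (Db c j X).G' := by
    funext p
    rw [Db_G', Pool.Agent.Helper23.HNG.dblX_G', Gb', dif_pos ha]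
  have hS : (Pool.Agent.Helper23.HNG.dblX (cs1 c j X)).S = (Db c j X).S := by
    ext ⟨x, y⟩
    rw [mem_Db, Pool.Agent.Helper23.HNG.mem_dblX, onX_cs1 c j X ha]
  exact ⟨dense_congr hG hG' hS h, dense_congr' hG hG' hS h'⟩

theorem dense2 (ha : a 0 ≠ a j.succ)
    (h : (Pool.Agent.Helper23.H2.dblX (one_le_of_ne ha) (cs2 c j X ha)).Dense)
    (h' : (Pool.Agent.Helper23.H2.dblX (one_le_of_ne ha) (cs2 c j X ha)).swap.Dense) :
    (Db c j X).Dense ∧ (Db c j X).swap.Dense := by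
  have hG : (Pool.Agent.Helper23.H2.dblX (one_le_of_ne ha) (cs2 c j X ha)).G = (Db c j X).G := by
    funext p
    rw [Db_G, Pool.Agent.Helper23.H2.dblX_G, Gb, dif_neg ha]
  have hG' : (Pool.Agent.Helper23.H2.dblX (one_le_of_ne ha) (cs2 c j X ha)).G' =
      (Db c j X).G' := by
    funext p
    rw [Db_G', Pool.Agent.Helper23.H2.dblX_G', Gb', dif_neg ha]
  have hS : (Pool.Agent.Helper23.H2.dblX (one_le_of_ne ha) (cs2 c j X ha)).S = (Db c j X).S := by
    ext ⟨x, y⟩
    rw [mem_Db, Pool.Agent.Helper23.H2.mem_dblX, onX_cs2 c j X ha]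
  exact ⟨dense_congr hG hG' hS h, dense_congr' hG hG' hS h'⟩

end dbl

end Pool.Agent.Helper23.HK
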