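import Pool.Agent.Helper23.HK.Br

set_option autoImplicit false
set_option linter.unusedVariables false
set_option linter.unusedSectionVars false

/-!
# The coefficients `cs1`, `cs2`: naturality, points, and every coefficient vector occurs
-/

namespace Pool.Agent.Helper23.HK

open Pool.Agent.Helper28.HN (I aff)
open Pool.Agent.Helper64.HK
open Function Finset

variable {k m : ℕ} {a : Fin (k + 1) → Fin (m + 1)}

section ring

variable {S : Type*} [CommRing S] (c : Ix a → S) (j : Fin k) (X : Fin (k + 1) → I m → S)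

theorem Z_congr {X X' : Fin (k + 1) → I m → S} (h : ∀ l, l ≠ 0 → l ≠ j.succ → X l = X' l)
    (x y : I m → S) : Z j X x y = Z j X' x y := by
  funext l
  by_cases h0 : l = 0
  · subst h0
    rw [Z_zero, Z_zero]
  · by_cases h1 : l = j.succ
    · subst h1
      rw [Z_succ, Z_succ]
    · rw [Z_other _ _ _ _ h0 h1, Z_other _ _ _ _ h0 h1, h l h0 h1]

theorem cs1_congr {X X' : Fin (k + 1) → I m → S} (h : ∀ l, l ≠ 0 → l ≠ j.succ → X l = X' l) :
    cs1 c j X = cs1 c j X' := by
  funext e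
  rcases e with ⟨r, p, q⟩ | ⟨p, p', q, q'⟩ <;> simp only [cs1, Z_congr j h]

theorem cs2_congr (ha : a 0 ≠ a j.succ) {X X' : Fin (k + 1) → I m → S}
    (h : ∀ l, l ≠ 0 → l ≠ j.succ → X l = X' l) : cs2 c j X ha = cs2 c j X' ha := by
  funext e
  rcases e with ⟨r, p, q⟩ | ⟨p, p', q⟩ | ⟨p, q, q'⟩ <;> simp only [cs2, Z_congr j h]

variable {T : Type*} [CommRing T] (f : S →+* T)

theorem map_Z (x y : I m → S) : (fun l i => f (Z j X x y l i)) =
    Z j (fun l i => f (X l i)) (fun i => f (x i)) (fun i => f (y i)) := by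
  unfold Z
  rw [map_upd, map_upd]

theorem map_e (p : I m) : (fun i => f ((Pi.single p 1 : I m → S) i)) = Pi.single p 1 := by
  rw [map_single, map_one]

theorem map_0 : (fun i => f ((0 : I m → S) i)) = 0 := by
  funext i
  simp

theorem map_cs1 (e : Pool.Agent.Helper28.HN.Ix m) :
    f (cs1 c j X e) = cs1 (fun e => f (c e)) j (fun l i => f (X l i)) e := by
  rcases e with ⟨r, p, q⟩ | ⟨p, p', q, q'⟩
  · simp only [cs1, map_Ef, map_Z, map_e]
  · simp only [cs1, map_Mf, map_Z, map_e]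

theorem map_cs2 (ha : a 0 ≠ a j.succ) (e : Pool.Agent.Helper24.H2.Ix m) :
    f (cs2 c j X ha e) = cs2 (fun e => f (c e)) j (fun l i => f (X l i)) ha e := by
  rcases e with ⟨r, p, q⟩ | ⟨p, p', q⟩ | ⟨p, q, q'⟩
  · simp only [cs2, map_Ef, map_Z, map_e]
  · simp only [cs2, map_Mf, map_Z, map_e, map_0]
  · simp only [cs2, map_Mf, map_Z, map_e, map_0]

/-! ### Every coefficient vector occurs -/

/-- The indices of the factors. -/
def Ps (j : Fin k) (p q : I m) : Fin (k + 1) → I m :=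
  fun l => if l = 0 then q else if l = j.succ then p else 0

/-- The extension by zero. -/
noncomputable def ext0 (j : Fin k)
    (g : ∀ i : Fin (m + 1), (Fin (k + 1) → I m) → ({l // a l = i} → I m) → S) : Ix a → S := by
  classical
  exact fun e => if (∀ l, l ≠ 0 → l ≠ j.succ → e.2.1 l = 0) ∧
    (∀ l : {l // a l = e.1}, l.1 ≠ 0 → l.1 ≠ j.succ → e.2.2 l = 0) then g e.1 e.2.1 e.2.2 else 0

theorem Mf_ext0 {X : Fin (k + 1) → I m → S} (hX : ∀ l, l ≠ 0 → l ≠ j.succ → X l 0 = 1)
    (g : ∀ i : Fin (m + 1), (Fin (k + 1) → I m) → ({l // a l = i} → I m) → S)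
    (i : Fin (m + 1)) (p q p' q' : I m) (x' y' : I m → S) (hy : a 0 = i → y' = Pi.single q' 1)
    (hx : a j.succ = i → x' = Pi.single p' 1) :
    Mf (ext0 j g) i (Z j X (Pi.single p 1) (Pi.single q 1)) (Z j X x' y') =
      g i (Ps j p q) (fun l => Ps j p' q' l.1) := by
  classical
  have hs : j.succ ≠ 0 := Fin.succ_ne_zero j
  have hPs0 : ∀ p q : I m, Ps j p q 0 = q := fun p q => if_pos rfl
  have hPs1 : ∀ p q : I m, Ps j p q j.succ = p := fun p q => by
    unfold Ps
    rw [if_neg hs, if_pos rfl]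
  have hPs2 : ∀ (p q : I m) l, l ≠ 0 → l ≠ j.succ → Ps j p q l = 0 := fun p q l h0 h1 => by
    unfold Ps
    rw [if_neg h0, if_neg h1]
  have hU : ∀ l, Z j X (Pi.single p 1) (Pi.single q 1) l (Ps j p q l) = 1 := by
    intro l
    by_cases h0 : l = 0
    · subst h0
      rw [Z_zero, hPs0, Pi.single_eq_same]
    · by_cases h1 : l = j.succ
      · subst h1
        rw [Z_succ, hPs1, Pi.single_eq_same]
      · rw [Z_other _ _ _ _ h0 h1, hPs2 _ _ _ h0 h1, hX l h0 h1]
  have hV : ∀ l : {l // a l = i}, Z j X x' y' l.1 (Ps j p' q' l.1) = 1 := by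
    rintro ⟨l, hl⟩
    by_cases h0 : l = 0
    · subst h0
      rw [Z_zero, hPs0, hy hl, Pi.single_eq_same]
    · by_cases h1 : l = j.succ
      · subst h1
        rw [Z_succ, hPs1, hx hl, Pi.single_eq_same]
      · rw [Z_other _ _ _ _ h0 h1, hPs2 _ _ _ h0 h1, hX l h0 h1]
  unfold Mf
  rw [Finset.sum_eq_single (Ps j p q)]
  · rw [Finset.sum_eq_single (fun l : {l // a l = i} => Ps j p' q' l.1)]
    · rw [Finset.prod_congr rfl fun l _ => hU l, Finset.prod_congr rfl fun l _ => hV l,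
        Finset.prod_const_one, Finset.prod_const_one, mul_one, mul_one]
      unfold ext0
      rw [if_pos]
      exact ⟨fun l h0 h1 => hPs2 _ _ _ h0 h1, fun l h0 h1 => hPs2 _ _ _ h0 h1⟩
    · intro Q _ hQ
      obtain ⟨l, hl⟩ : ∃ l, Q l ≠ Ps j p' q' l.1 := by
        by_contra hcon
        push Not at hcon
        exact hQ (funext hcon)
      by_cases h0 : l.1 = 0
      · rw [Finset.prod_eq_zero (Finset.mem_univ l)
          (f := fun l : {l // a l = i} => Z j X x' y' l.1 (Q l)), mul_zero]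
        have h2 : a 0 = i := by rw [← h0]; exact l.2
        rw [h0, hPs0] at hl
        rw [h0, Z_zero, hy h2, Pi.single_eq_of_ne hl]
      · by_cases h1 : l.1 = j.succ
        · rw [Finset.prod_eq_zero (Finset.mem_univ l)
            (f := fun l : {l // a l = i} => Z j X x' y' l.1 (Q l)), mul_zero]
          have h2 : a j.succ = i := by rw [← h1]; exact l.2
          rw [h1, hPs1] at hl
          rw [h1, Z_succ, hx h2, Pi.single_eq_of_ne hl]
        · rw [hPs2 _ _ _ h0 h1] at hl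
          have h2 : ext0 j g ⟨i, (Ps j p q, Q)⟩ = 0 := by
            unfold ext0
            rw [if_neg]
            rintro ⟨-, h3⟩
            exact hl (h3 l h0 h1)
          rw [h2, zero_mul, zero_mul]
    · intro h
      exact absurd (Finset.mem_univ _) h
  · intro P _ hP
    refine Finset.sum_eq_zero fun Q _ => ?_
    obtain ⟨l, hl⟩ : ∃ l, P l ≠ Ps j p q l := by
      by_contra hcon
      push Not at hcon
      exact hP (funext hcon)
    by_cases h0 : l = 0
    · rw [Finset.prod_eq_zero (Finset.mem_univ l)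
        (f := fun l => Z j X (Pi.single p 1) (Pi.single q 1) l (P l)), mul_zero, zero_mul]
      subst h0
      rw [hPs0] at hl
      rw [Z_zero, Pi.single_eq_of_ne hl]
    · by_cases h1 : l = j.succ
      · rw [Finset.prod_eq_zero (Finset.mem_univ l)
          (f := fun l => Z j X (Pi.single p 1) (Pi.single q 1) l (P l)), mul_zero, zero_mul]
        subst h1
        rw [hPs1] at hl
        rw [Z_succ, Pi.single_eq_of_ne hl]
      · rw [hPs2 _ _ _ h0 h1] at hl
        have h2 : ext0 j g ⟨i, (P, Q)⟩ = 0 := by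
          unfold ext0
          rw [if_neg]
          rintro ⟨h3, -⟩
          exact hl (h3 l h0 h1)
        rw [h2, zero_mul, zero_mul]
  · intro h
    exact absurd (Finset.mem_univ _) h

theorem exists_cs1 (ha : a 0 = a j.succ) {X : Fin (k + 1) → I m → S}
    (hX : ∀ l, l ≠ 0 → l ≠ j.succ → X l 0 = 1) (c0 : Pool.Agent.Helper28.HN.Ix m → S) :
    ∃ c : Ix a → S, cs1 c j X = c0 := by
  classical
  have hs : j.succ ≠ 0 := Fin.succ_ne_zero j
  let g : ∀ i : Fin (m + 1), (Fin (k + 1) → I m) → ({l // a l = i} → I m) → S := fun i P Q =>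
    if h : i = a 0 then c0 (.inr (P j.succ, Q ⟨j.succ, ha.symm.trans h.symm⟩, P 0, Q ⟨0, h.symm⟩))
    else c0 (.inl ((finSuccAboveEquiv (a 0)).symm ⟨i, h⟩, P j.succ, P 0))
  have hPs0 : ∀ p q : I m, Ps j p q 0 = q := fun p q => if_pos rfl
  have hPs1 : ∀ p q : I m, Ps j p q j.succ = p := fun p q => by
    unfold Ps
    rw [if_neg hs, if_pos rfl]
  refine ⟨ext0 j g, ?_⟩
  funext e
  rcases e with ⟨r, p, q⟩ | ⟨p, p', q, q'⟩
  · have h1 : (a 0).succAbove r ≠ a 0 := Fin.succAbove_ne _ _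
    simp only [cs1]
    unfold Ef
    rw [Mf_ext0 j hX g _ p q p q _ _ (fun _ => rfl) (fun _ => rfl)]
    simp only [g, dif_neg h1, hPs0, hPs1]
    congr 3
    have h2 : (⟨(a 0).succAbove r, h1⟩ : {x // x ≠ a 0}) = finSuccAboveEquiv (a 0) r := rfl
    rw [h2, Equiv.symm_apply_apply]
  · simp only [cs1]
    rw [Mf_ext0 j hX g _ p q p' q' _ _ (fun _ => rfl) (fun _ => rfl)]
    simp only [g, dif_pos, hPs0, hPs1]

theorem exists_cs2 (ha : a 0 ≠ a j.succ) {X : Fin (k + 1) → I m → S}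
    (hX : ∀ l, l ≠ 0 → l ≠ j.succ → X l 0 = 1) (c0 : Pool.Agent.Helper24.H2.Ix m → S) :
    ∃ c : Ix a → S, cs2 c j X ha = c0 := by
  classical
  have hs : j.succ ≠ 0 := Fin.succ_ne_zero j
  let g : ∀ i : Fin (m + 1), (Fin (k + 1) → I m) → ({l // a l = i} → I m) → S := fun i P Q =>
    if h0 : i = a 0 then c0 (.inr (.inr (P j.succ, P 0, Q ⟨0, h0.symm⟩)))
    else if h1 : i = a j.succ then c0 (.inr (.inl (P j.succ, Q ⟨j.succ, h1.symm⟩, P 0)))
    else c0 (.inl ((be ha).symm ⟨i, h0, h1⟩, P j.succ, P 0))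
  have hPs0 : ∀ p q : I m, Ps j p q 0 = q := fun p q => if_pos rfl
  have hPs1 : ∀ p q : I m, Ps j p q j.succ = p := fun p q => by
    unfold Ps
    rw [if_neg hs, if_pos rfl]
  refine ⟨ext0 j g, ?_⟩
  funext e
  rcases e with ⟨r, p, q⟩ | ⟨p, p', q⟩ | ⟨p, q, q'⟩
  · have h0 := (be ha r).2.1
    have h1 := (be ha r).2.2
    simp only [cs2]
    unfold Ef
    rw [Mf_ext0 j hX g _ p q p q _ _ (fun _ => rfl) (fun _ => rfl)]
    simp only [g, dif_neg h0, dif_neg h1, hPs0, hPs1]
    congr 3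
    have h2 : (⟨(be ha r).1, h0, h1⟩ : {i : Fin (m + 1) // i ≠ a 0 ∧ i ≠ a j.succ}) = be ha r := rfl
    rw [h2, Equiv.symm_apply_apply]
  · simp only [cs2]
    rw [Mf_ext0 j hX g _ p q p' q _ _ (fun h => absurd h ha) (fun _ => rfl)]
    simp only [g, dif_neg ha.symm, dif_pos, hPs0, hPs1]
  · simp only [cs2]
    rw [Mf_ext0 j hX g _ p q p q' _ _ (fun _ => rfl) (fun h => absurd h.symm ha)]
    simp only [g, dif_pos, hPs0, hPs1]

end ring

/-! ### Points -/

section field

variable {F : Type*} [Field F] [CharZero F] (c : Ix a → F) (j : Fin k)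
  (X : Fin (k + 1) → I m → F)

theorem onX_cs1 (ha : a 0 = a j.succ) (x y : I m → F) :
    OnX c (Z j X x y) ↔ Pool.Agent.Helper28.HN.OnX (cs1 c j X) x y := by
  unfold OnX Pool.Agent.Helper28.HN.OnX
  rw [qf_cs1 c j X ha]
  simp only [lf_cs1 c j X ha]
  constructor
  · intro h
    exact ⟨fun r => h _, by rw [h, mul_zero]⟩
  · rintro ⟨h1, h2⟩ i
    by_cases hi : i = a 0
    · rw [hi]
      exact (mul_eq_zero.1 h2).resolve_left (by norm_num)
    · obtain ⟨r, rfl⟩ := Fin.exists_succAbove_eq hi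
      exact h1 r

theorem onX_cs2 (ha : a 0 ≠ a j.succ) (x y : I m → F) :
    OnX c (Z j X x y) ↔ Pool.Agent.Helper24.H2.OnX (cs2 c j X ha) x y := by
  unfold OnX Pool.Agent.Helper24.H2.OnX
  rw [sf_cs2 c j X ha, tf_cs2 c j X ha]
  simp only [bf_cs2 c j X ha]
  constructor
  · intro h
    exact ⟨fun r => h _, by rw [h, mul_zero], by rw [h, mul_zero]⟩
  · rintro ⟨h1, h2, h3⟩ i
    by_cases hi : i = a 0
    · rw [hi]
      exact (mul_eq_zero.1 h3).resolve_left two_ne_zero
    · by_cases hi2 : i = a j.succ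
      · rw [hi2]
        exact (mul_eq_zero.1 h2).resolve_left two_ne_zero
      · have h4 := h1 ((be ha).symm ⟨i, hi, hi2⟩)
        rw [Equiv.apply_symm_apply] at h4
        exact h4

end field

end Pool.Agent.Helper23.HK
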